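import Pool.Agent.Helper10.AB.GoalsF1
import Pool.Agent.Helper11.AB.ACT2

/-!
# Project AB (MP_1ef41b_an), module FM, packet WW: the weights `W_J`
-/

open MeasureTheory Set Filter Topology
open scoped ContDiff

noncomputable section

namespace Pool.Agent.Helper13.AB

open Pool.Agent.Helper24.AB Pool.Agent.Helper10.AB
open Pool.Agent.Helper11.AB (s5_sq s5_pos s5_lt s5_gt lam_pos exp_two_pi_kap kap_nonneg kap_le)

theorem kap_pos' : 0 < kap := by
  unfold kap
  apply div_pos (Real.log_pos _) (by positivity)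
  unfold lam
  linarith [s5_gt]

theorem alp_Jn (J : Fin 3 → ℤ) : alp (Jn J) = lam * alp J := by
  unfold alp Jn lam ph
  simp
  linear_combination (-(J 0 : ℝ) / 4) * s5_sq

theorem lam_inv : lam⁻¹ = (3 - Real.sqrt 5) / 2 := by
  apply inv_eq_of_mul_eq_one_left
  unfold lam
  linear_combination (-1 / 4 : ℝ) * s5_sq

theorem alp'_Jn (J : Fin 3 → ℤ) : alp' (Jn J) = lam⁻¹ * alp' J := by
  rw [lam_inv]
  unfold alp' Jn ph'
  simp
  linear_combination (-(J 0 : ℝ) / 4) * s5_sq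

theorem Jn_bij : Function.Bijective Jn := by
  refine Function.bijective_iff_has_inverse.2
    ⟨fun J => ![J 0 - J 1, 2 * J 1 - J 0, J 2], ?_, ?_⟩
  · intro J
    funext i
    fin_cases i
    · simp [Jn]; ring
    · simp [Jn]; ring
    · simp [Jn]
  · intro J
    funext i
    fin_cases i
    · simp [Jn]; ring
    · simp [Jn]; ring
    · simp [Jn]

theorem alp_mul (J : Fin 3 → ℤ) :
    alp J * alp' J = (((J 1) ^ 2 + J 0 * J 1 - (J 0) ^ 2 : ℤ) : ℝ) := by
  unfold alp alp' ph ph'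
  push_cast
  linear_combination (-(J 0 : ℝ) ^ 2 / 4) * s5_sq

theorem norm_ne (m n : ℤ) (h : m ≠ 0 ∨ n ≠ 0) : n ^ 2 + m * n - m ^ 2 ≠ 0 := by
  intro h0
  have h1 : (2 * n + m) ^ 2 = 5 * m ^ 2 := by linear_combination 4 * h0
  by_cases hm : m = 0
  · subst hm
    have : n ^ 2 = 0 := by linear_combination h0
    have : n = 0 := by simpa using this
    rcases h with h | h
    · exact h rfl
    · exact h this
  · have hi : Irrational (Real.sqrt 5) := by
      have := Nat.Prime.irrational_sqrt (show Nat.Prime 5 by norm_num)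
      simpa using this
    apply hi
    have hmr : (m : ℝ) ≠ 0 := by exact_mod_cast hm
    have h2 : ((2 * n + m : ℝ)) ^ 2 = 5 * (m : ℝ) ^ 2 := by exact_mod_cast h1
    have h3 : Real.sqrt 5 = |(2 * n + m : ℝ) / m| := by
      rw [← Real.sqrt_sq_eq_abs]
      congr 1
      rw [div_pow, h2]
      field_simp
    refine ⟨|(2 * n + m : ℚ) / m|, ?_⟩
    rw [h3]
    push_cast
    rfl

theorem alp_prod (J : Fin 3 → ℤ) (h : J 0 ≠ 0 ∨ J 1 ≠ 0) :
    alp J ≠ 0 ∧ alp' J ≠ 0 ∧ 1 ≤ |alp J * alp' J| := by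
  have h1 := norm_ne (J 0) (J 1) h
  have h2 : (1 : ℝ) ≤ |alp J * alp' J| := by
    rw [alp_mul]
    have := Int.one_le_abs h1
    exact_mod_cast this
  refine ⟨?_, ?_, h2⟩
  · intro h3
    rw [h3] at h2
    norm_num at h2
  · intro h3
    rw [h3] at h2
    norm_num at h2

theorem WJ_period (J : Fin 3 → ℤ) (t : ℝ) : WJ J (t + 2 * Real.pi) = WJ (Jn J) t := by
  have e1 : Real.exp (kap * (t + 2 * Real.pi)) = lam * Real.exp (kap * t) := by
    rw [mul_add, Real.exp_add, exp_two_pi_kap]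
    ring
  have e2 : Real.exp (-(kap * (t + 2 * Real.pi))) = lam⁻¹ * Real.exp (-(kap * t)) := by
    rw [Real.exp_neg, e1, mul_inv, Real.exp_neg]
  have e3 : (Jn J) 2 = J 2 := by simp [Jn]
  unfold WJ Wf uf vf
  rw [e1, e2, alp_Jn, alp'_Jn, e3]
  have e4 : alp J * (lam * Real.exp (kap * t)) = lam * alp J * Real.exp (kap * t) := by ring
  have e5 : alp' J * (lam⁻¹ * Real.exp (-(kap * t))) = lam⁻¹ * alp' J * Real.exp (-(kap * t)) := by
    ring
  rw [e4, e5]

theorem WJ_isWt : IsWt (fun J : JJ => WJ J.1) where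
  one_le J t := by
    unfold WJ Wf
    have := abs_nonneg (uf (alp J.1) t)
    have := abs_nonneg (vf (alp' J.1) t)
    have := abs_nonneg ((J.1 2 : ℤ) : ℝ)
    linarith
  cont J := by
    unfold WJ Wf uf vf
    fun_prop
  slow J t s := by
    have hk0 := kap_nonneg
    have hk1 := kap_le
    have h1 : Real.exp (kap * (t + s)) ≤ Real.exp |s| * Real.exp (kap * t) := by
      rw [← Real.exp_add]
      apply Real.exp_le_exp.2
      have : kap * s ≤ |s| := by
        calc kap * s ≤ kap * |s| := mul_le_mul_of_nonneg_left (le_abs_self s) hk0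
          _ ≤ 1 * |s| := mul_le_mul_of_nonneg_right (by linarith) (abs_nonneg s)
          _ = |s| := one_mul _
      linarith
    have h2 : Real.exp (-(kap * (t + s))) ≤ Real.exp |s| * Real.exp (-(kap * t)) := by
      rw [← Real.exp_add]
      apply Real.exp_le_exp.2
      have : kap * (-s) ≤ |s| := by
        calc kap * (-s) ≤ kap * |s| := mul_le_mul_of_nonneg_left (neg_le_abs s) hk0
          _ ≤ 1 * |s| := mul_le_mul_of_nonneg_right (by linarith) (abs_nonneg s)
          _ = |s| := one_mul _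
      linarith
    have h3 : 1 ≤ Real.exp |s| := Real.one_le_exp (abs_nonneg s)
    have h4 : |uf (alp J.1) (t + s)| ≤ Real.exp |s| * |uf (alp J.1) t| := by
      unfold uf
      rw [abs_mul, abs_mul, Real.abs_exp, Real.abs_exp]
      calc |alp J.1| * Real.exp (kap * (t + s))
          ≤ |alp J.1| * (Real.exp |s| * Real.exp (kap * t)) :=
            mul_le_mul_of_nonneg_left h1 (abs_nonneg _)
        _ = Real.exp |s| * (|alp J.1| * Real.exp (kap * t)) := by ring
    have h5 : |vf (alp' J.1) (t + s)| ≤ Real.exp |s| * |vf (alp' J.1) t| := by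
      unfold vf
      rw [abs_mul, abs_mul, Real.abs_exp, Real.abs_exp]
      calc |alp' J.1| * Real.exp (-(kap * (t + s)))
          ≤ |alp' J.1| * (Real.exp |s| * Real.exp (-(kap * t))) :=
            mul_le_mul_of_nonneg_left h2 (abs_nonneg _)
        _ = Real.exp |s| * (|alp' J.1| * Real.exp (-(kap * t))) := by ring
    have h6 : |((J.1 2 : ℤ) : ℝ)| ≤ Real.exp |s| * |((J.1 2 : ℤ) : ℝ)| :=
      le_mul_of_one_le_left (abs_nonneg _) h3
    show WJ J.1 (t + s) ≤ Real.exp |s| * WJ J.1 t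
    unfold WJ Wf
    nlinarith [h3, h4, h5, h6]

/-- quadratic lower bound for the weight -/
theorem WJ_lower (J : JJ) : ∃ t0 : ℝ, ∀ t, 1 + (kap * (t - t0)) ^ 2 ≤ WJ J.1 t ^ 2 := by
  obtain ⟨ha, ha', hp⟩ := alp_prod J.1 J.2
  have hk := kap_pos'
  set α := |alp J.1| with hα
  set α' := |alp' J.1| with hα'
  have hα0 : 0 < α := abs_pos.2 ha
  have hα'0 : 0 < α' := abs_pos.2 ha'
  have hp1 : 1 ≤ α * α' := by rw [hα, hα', ← abs_mul]; exact hp
  refine ⟨(Real.log α' - Real.log α) / (2 * kap), fun t => ?_⟩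
  set x := kap * (t - (Real.log α' - Real.log α) / (2 * kap)) with hx
  have hx2 : kap * t = x + (Real.log α' - Real.log α) / 2 := by
    rw [hx]
    field_simp
    ring
  have h1 : |uf (alp J.1) t| * 1 = Real.exp ((Real.log α' + Real.log α) / 2) * Real.exp x := by
    unfold uf
    rw [abs_mul, Real.abs_exp, ← hα, hx2]
    nth_rewrite 1 [← Real.exp_log hα0]
    rw [mul_one, ← Real.exp_add, ← Real.exp_add]
    congr 1
    ring
  have h2 : |vf (alp' J.1) t| * 1 = Real.exp ((Real.log α' + Real.log α) / 2) * Real.exp (-x) := by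
    unfold vf
    rw [abs_mul, Real.abs_exp, ← hα', hx2]
    nth_rewrite 1 [← Real.exp_log hα'0]
    rw [mul_one, ← Real.exp_add, ← Real.exp_add]
    congr 1
    ring
  have h3 : 1 ≤ Real.exp ((Real.log α' + Real.log α) / 2) := by
    apply Real.one_le_exp
    rw [← Real.log_mul hα'0.ne' hα0.ne']
    have : 0 ≤ Real.log (α' * α) := Real.log_nonneg (by rw [mul_comm]; exact hp1)
    linarith
  have h4 : Real.exp |x| ≤ |uf (alp J.1) t| + |vf (alp' J.1) t| := by
    have h5 := Real.exp_pos x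
    have h6 := Real.exp_pos (-x)
    have h7 : Real.exp x ≤ |uf (alp J.1) t| := by
      rw [mul_one] at h1
      rw [h1]
      exact le_mul_of_one_le_left h5.le h3
    have h8 : Real.exp (-x) ≤ |vf (alp' J.1) t| := by
      rw [mul_one] at h2
      rw [h2]
      exact le_mul_of_one_le_left h6.le h3
    rcases abs_cases x with ⟨h9, _⟩ | ⟨h9, _⟩
    · rw [h9]
      linarith [abs_nonneg (vf (alp' J.1) t)]
    · rw [h9]
      linarith [abs_nonneg (uf (alp J.1) t)]
  have h5 : 1 + |x| + |x| ^ 2 / 2 ≤ Real.exp |x| := Real.quadratic_le_exp_of_nonneg (abs_nonneg x)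
  have h6 : Real.exp |x| ≤ WJ J.1 t := by
    unfold WJ Wf
    linarith [abs_nonneg ((J.1 2 : ℤ) : ℝ)]
  have h7 : 1 + |x| ≤ WJ J.1 t := by nlinarith [abs_nonneg x]
  calc 1 + x ^ 2 = 1 + |x| ^ 2 := by rw [sq_abs]
    _ ≤ (1 + |x|) ^ 2 := by nlinarith [abs_nonneg x]
    _ ≤ WJ J.1 t ^ 2 := pow_le_pow_left₀ (by positivity) h7 2

theorem WJ_int : ∃ C : ℝ, ∀ J : JJ, Integrable (fun t => (WJ J.1 t ^ 2)⁻¹) ∧
    ∫ t, (WJ J.1 t ^ 2)⁻¹ ≤ C := by
  refine ⟨kap⁻¹ * Real.pi, fun J => ?_⟩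
  have hk := kap_pos'
  obtain ⟨t0, ht0⟩ := WJ_lower J
  have hI0 : Integrable (fun t : ℝ => (1 + (kap * t) ^ 2)⁻¹) :=
    integrable_inv_one_add_sq.comp_mul_left' hk.ne'
  have hI : Integrable (fun t : ℝ => (1 + (kap * (t - t0)) ^ 2)⁻¹) := hI0.comp_sub_right t0
  have hpos : ∀ t, 0 < WJ J.1 t := fun t => lt_of_lt_of_le one_pos (WJ_isWt.one_le J t)
  have hle : ∀ t, (WJ J.1 t ^ 2)⁻¹ ≤ (1 + (kap * (t - t0)) ^ 2)⁻¹ := fun t =>
    inv_anti₀ (by positivity) (ht0 t)
  have hcont : Continuous (fun t => (WJ J.1 t ^ 2)⁻¹) :=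
    ((WJ_isWt.cont J).pow 2).inv₀ (fun t => (pow_pos (hpos t) 2).ne')
  have hW : Integrable (fun t => (WJ J.1 t ^ 2)⁻¹) := by
    refine hI.mono' hcont.aestronglyMeasurable (Eventually.of_forall fun t => ?_)
    rw [Real.norm_of_nonneg (inv_nonneg.2 (sq_nonneg _))]
    exact hle t
  refine ⟨hW, (integral_mono hW hI hle).trans (le_of_eq ?_)⟩
  rw [integral_sub_right_eq_self (fun t : ℝ => (1 + (kap * t) ^ 2)⁻¹) t0]
  have := Measure.integral_comp_mul_left (fun t : ℝ => (1 + t ^ 2)⁻¹) kap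
  rw [this, integral_univ_inv_one_add_sq, abs_of_pos (inv_pos.2 hk), smul_eq_mul]

theorem WJ_comp (T : ℝ) : ∃ c : ℝ, 0 < c ∧ ∀ J t, |t| ≤ T →
    c * nJ J ≤ WJ J t ∧ WJ J t ≤ c⁻¹ * nJ J := by
  have hk0 := kap_nonneg
  set E := Real.exp (kap * |T|) with hE
  have hE1 : 1 ≤ E := Real.one_le_exp (by positivity)
  refine ⟨(4 * E)⁻¹, by positivity, fun J t ht => ?_⟩
  rw [inv_inv]
  have ht1 : |t| ≤ |T| := ht.trans (le_abs_self T)
  have k1 : kap * t ≤ kap * |T| := mul_le_mul_of_nonneg_left ((le_abs_self t).trans ht1) hk0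
  have k2 : -(kap * t) ≤ kap * |T| := by
    rw [← mul_neg]
    exact mul_le_mul_of_nonneg_left ((neg_le_abs t).trans ht1) hk0
  have e1 : Real.exp (kap * t) ≤ E := Real.exp_le_exp.2 k1
  have e2 : Real.exp (-(kap * t)) ≤ E := Real.exp_le_exp.2 k2
  have e3 : 1 ≤ E * Real.exp (kap * t) := by
    rw [hE, ← Real.exp_add]
    exact Real.one_le_exp (by linarith)
  have e4 : 1 ≤ E * Real.exp (-(kap * t)) := by
    rw [hE, ← Real.exp_add]
    exact Real.one_le_exp (by linarith)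
  set m : ℝ := (J 0 : ℝ) with hm
  set n : ℝ := (J 1 : ℝ) with hn
  set l : ℝ := (J 2 : ℝ) with hl
  have ha : alp J = m * ph + n := rfl
  have ha' : alp' J = m * ph' + n := rfl
  have p1 : |ph| ≤ 2 := by
    unfold ph
    rw [abs_le]
    constructor <;> linarith [s5_gt, s5_lt]
  have p2 : |ph'| ≤ 1 := by
    unfold ph'
    rw [abs_le]
    constructor <;> linarith [s5_gt, s5_lt]
  have b1 : |alp J| ≤ 2 * |m| + |n| := by
    rw [ha]
    calc |m * ph + n| ≤ |m * ph| + |n| := abs_add_le _ _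
      _ = |m| * |ph| + |n| := by rw [abs_mul]
      _ ≤ |m| * 2 + |n| := by gcongr
      _ = 2 * |m| + |n| := by ring
  have b2 : |alp' J| ≤ |m| + |n| := by
    rw [ha']
    calc |m * ph' + n| ≤ |m * ph'| + |n| := abs_add_le _ _
      _ = |m| * |ph'| + |n| := by rw [abs_mul]
      _ ≤ |m| * 1 + |n| := by gcongr
      _ = |m| + |n| := by ring
  have c1 : |m| ≤ |alp J| + |alp' J| := by
    have h1 : Real.sqrt 5 * m = alp J - alp' J := by
      rw [ha, ha']
      unfold ph ph'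
      ring
    have h2 : Real.sqrt 5 * |m| ≤ |alp J| + |alp' J| := by
      calc Real.sqrt 5 * |m| = |Real.sqrt 5 * m| := by rw [abs_mul, abs_of_pos s5_pos]
        _ = |alp J - alp' J| := by rw [h1]
        _ ≤ _ := abs_sub _ _
    nlinarith [abs_nonneg m, s5_gt]
  have c2 : |n| ≤ |alp J| + |alp' J| := by
    have h1 : Real.sqrt 5 * n = ph * alp' J - ph' * alp J := by
      rw [ha, ha']
      unfold ph ph'
      ring
    have h2 : Real.sqrt 5 * |n| ≤ 2 * |alp' J| + 1 * |alp J| := by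
      calc Real.sqrt 5 * |n| = |Real.sqrt 5 * n| := by rw [abs_mul, abs_of_pos s5_pos]
        _ = |ph * alp' J - ph' * alp J| := by rw [h1]
        _ ≤ |ph * alp' J| + |ph' * alp J| := abs_sub _ _
        _ = |ph| * |alp' J| + |ph'| * |alp J| := by rw [abs_mul, abs_mul]
        _ ≤ 2 * |alp' J| + 1 * |alp J| := by gcongr
    nlinarith [abs_nonneg n, s5_gt, abs_nonneg (alp J), abs_nonneg (alp' J)]
  have u1 : |uf (alp J) t| = |alp J| * Real.exp (kap * t) := by
    unfold uf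
    rw [abs_mul, Real.abs_exp]
  have v1 : |vf (alp' J) t| = |alp' J| * Real.exp (-(kap * t)) := by
    unfold vf
    rw [abs_mul, Real.abs_exp]
  have hW : WJ J t = 2 + |alp J| * Real.exp (kap * t) + |alp' J| * Real.exp (-(kap * t)) + |l| := by
    unfold WJ Wf
    rw [u1, v1]
  have hN : nJ J = 1 + |m| + |n| + |l| := rfl
  have hA0 := abs_nonneg (alp J)
  have hA0' := abs_nonneg (alp' J)
  have hm0 := abs_nonneg m
  have hn0 := abs_nonneg n
  have hl0 := abs_nonneg l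
  have d1 : |alp J| ≤ E * (|alp J| * Real.exp (kap * t)) := by
    calc |alp J| = |alp J| * 1 := (mul_one _).symm
      _ ≤ |alp J| * (E * Real.exp (kap * t)) := by gcongr
      _ = _ := by ring
  have d2 : |alp' J| ≤ E * (|alp' J| * Real.exp (-(kap * t))) := by
    calc |alp' J| = |alp' J| * 1 := (mul_one _).symm
      _ ≤ |alp' J| * (E * Real.exp (-(kap * t))) := by gcongr
      _ = _ := by ring
  have d3 : |alp J| * Real.exp (kap * t) ≤ (2 * |m| + |n|) * E := by gcongr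
  have d4 : |alp' J| * Real.exp (-(kap * t)) ≤ (|m| + |n|) * E := by gcongr
  have d5 : |l| ≤ E * |l| := le_mul_of_one_le_left hl0 hE1
  constructor
  · rw [inv_mul_le_iff₀ (by positivity), hW, hN]
    have hX : 0 ≤ |alp J| * Real.exp (kap * t) := by positivity
    have hY : 0 ≤ |alp' J| * Real.exp (-(kap * t)) := by positivity
    nlinarith
  · rw [hW, hN]
    have q1 : |m| ≤ E * |m| := le_mul_of_one_le_left hm0 hE1
    nlinarith [mul_nonneg (by linarith : (0:ℝ) ≤ E) hm0, mul_nonneg (by linarith : (0:ℝ) ≤ E) hn0,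
      mul_nonneg (by linarith : (0:ℝ) ≤ E) hl0]

/-! ## Summability -/

theorem summable_f : Summable (fun n : ℤ => (1 + |(n : ℝ)|) ^ (-(4 / 3) : ℝ)) := by
  have h0 : Summable (fun n : ℕ => ((n : ℝ)) ^ (-(4 / 3) : ℝ)) :=
    Real.summable_nat_rpow.2 (by norm_num)
  have h1 : Summable (fun n : ℕ => (1 + (n : ℝ)) ^ (-(4 / 3) : ℝ)) := by
    have := (summable_nat_add_iff 1).2 h0
    refine this.congr fun n => ?_
    push_cast
    rw [add_comm]
  apply Summable.of_nat_of_neg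
  · refine h1.congr fun n => ?_
    simp
  · refine h1.congr fun n => ?_
    simp

theorem nJ_summable : Summable (fun J : Fin 3 → ℤ => (nJ J ^ 4)⁻¹) := by
  set f : ℤ → ℝ := fun n => (1 + |(n : ℝ)|) ^ (-(4 / 3) : ℝ) with hf
  have hf0 : ∀ n, 0 ≤ f n := fun n => by rw [hf]; positivity
  have h2 : Summable (fun x : ℤ × ℤ => f x.1 * f x.2) :=
    summable_f.mul_of_nonneg summable_f hf0 hf0
  have h3 : Summable (fun x : ℤ × (ℤ × ℤ) => f x.1 * (f x.2.1 * f x.2.2)) :=
    summable_f.mul_of_nonneg h2 hf0 (fun x => mul_nonneg (hf0 _) (hf0 _))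
  let e : (Fin 3 → ℤ) → ℤ × (ℤ × ℤ) := fun J => (J 0, (J 1, J 2))
  have he : Function.Injective e := by
    intro J J' h
    simp only [e, Prod.mk.injEq] at h
    funext i
    fin_cases i
    · exact h.1
    · exact h.2.1
    · exact h.2.2
  have h4 := h3.comp_injective he
  refine Summable.of_nonneg_of_le (fun J => ?_) (fun J => ?_) h4
  · unfold nJ
    positivity
  · show (nJ J ^ 4)⁻¹ ≤ f (J 0) * (f (J 1) * f (J 2))
    have hN : 1 ≤ nJ J := by
      unfold nJ
      linarith [abs_nonneg ((J 0 : ℤ) : ℝ), abs_nonneg ((J 1 : ℤ) : ℝ), abs_nonneg ((J 2 : ℤ) : ℝ)]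
    have hN0 : 0 < nJ J := by linarith
    have key : ∀ i : Fin 3, nJ J ^ (-(4 / 3) : ℝ) ≤ f (J i) := by
      intro i
      rw [hf]
      apply Real.rpow_le_rpow_of_nonpos (by positivity) _ (by norm_num)
      unfold nJ
      have := abs_nonneg ((J 0 : ℤ) : ℝ)
      have := abs_nonneg ((J 1 : ℤ) : ℝ)
      have := abs_nonneg ((J 2 : ℤ) : ℝ)
      fin_cases i
      · show 1 + |((J 0 : ℤ) : ℝ)| ≤ _
        linarith
      · show 1 + |((J 1 : ℤ) : ℝ)| ≤ _
        linarith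
      · show 1 + |((J 2 : ℤ) : ℝ)| ≤ _
        linarith
    have e1 : (nJ J ^ 4)⁻¹ = nJ J ^ (-(4 / 3) : ℝ) * (nJ J ^ (-(4 / 3) : ℝ) * nJ J ^ (-(4 / 3) : ℝ)) := by
      rw [← Real.rpow_add hN0, ← Real.rpow_add hN0]
      norm_num
    rw [e1]
    have hz : 0 ≤ nJ J ^ (-(4 / 3) : ℝ) := by positivity
    exact mul_le_mul (key 0) (mul_le_mul (key 1) (key 2) hz (hf0 _)) (mul_nonneg hz hz) (hf0 _)

theorem ww : S_WW :=
  ⟨WJ_isWt, WJ_int, WJ_period, WJ_comp, alp_prod, nJ_summable,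
    fun J => ⟨alp_Jn J, alp'_Jn J⟩, Jn_bij⟩

end Pool.Agent.Helper13.AB
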