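import Pool.Agent.Helper95.AB.GoalsW

/-!
# Project AB (`MP_1ef41b_an`), packet BARR: the barrier estimate on the block of a good sheet
-/

open MeasureTheory Set Filter Topology
open scoped ContDiff

noncomputable section

namespace Pool.Agent.Helper13.AB

open Pool.Agent.Helper24.AB Pool.Agent.Helper95.AB

theorem isOpen_strip (a : ℝ) : IsOpen (strip a) :=
  isOpen_lt (Complex.continuous_re.abs) continuous_const

theorem contDiffOn_dS {a : ℝ} {Φ : ℂ → ℝ} (h : ContDiffOn ℝ ∞ Φ (strip a)) :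
    ContDiffOn ℝ ∞ (dS Φ) (strip a) :=
  (h.fderiv_of_isOpen (isOpen_strip a) (by simp)).clm_apply contDiffOn_const

theorem contDiffOn_dT {a : ℝ} {Φ : ℂ → ℝ} (h : ContDiffOn ℝ ∞ Φ (strip a)) :
    ContDiffOn ℝ ∞ (dT Φ) (strip a) :=
  (h.fderiv_of_isOpen (isOpen_strip a) (by simp)).clm_apply contDiffOn_const

theorem continuousOn_lapC {a : ℝ} {Φ : ℂ → ℝ} (h : ContDiffOn ℝ ∞ Φ (strip a)) :
    ContinuousOn (lapC Φ) (strip a) :=
  (contDiffOn_dS (contDiffOn_dS h)).continuousOn.add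
    (contDiffOn_dT (contDiffOn_dT h)).continuousOn

theorem continuous_dS {φ : ℂ → ℂ} (h : ContDiff ℝ ∞ φ) : Continuous (dS φ) :=
  (h.continuous_fderiv (by simp)).clm_apply continuous_const

theorem continuous_dT {φ : ℂ → ℂ} (h : ContDiff ℝ ∞ φ) : Continuous (dT φ) :=
  (h.continuous_fderiv (by simp)).clm_apply continuous_const

theorem continuousOn_gA {a : ℝ} {Φ : ℂ → ℝ} {φ : ℂ → ℂ} (h : ContDiffOn ℝ ∞ Φ (strip a))
    (hφ : ContDiff ℝ ∞ φ) : ContinuousOn (gA Φ φ) (strip a) := by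
  have h1 := (contDiffOn_dS h).continuousOn
  have h2 := (contDiffOn_dT h).continuousOn
  have h3 := (continuous_dS hφ).continuousOn (s := strip a)
  have h4 := (continuous_dT hφ).continuousOn (s := strip a)
  have h5 := hφ.continuous.continuousOn (s := strip a)
  have h1' : ContinuousOn (fun w => ((dS Φ w : ℝ) : ℂ)) (strip a) :=
    Complex.continuous_ofReal.comp_continuousOn h1
  have h2' : ContinuousOn (fun w => ((dT Φ w : ℝ) : ℂ)) (strip a) :=
    Complex.continuous_ofReal.comp_continuousOn h2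
  unfold gA
  exact ((h3.add ((continuousOn_const.mul h2').mul h5)).norm.pow 2).add
    ((h4.sub ((continuousOn_const.mul h1').mul h5)).norm.pow 2)

theorem gA_nonneg (Φ : ℂ → ℝ) (φ : ℂ → ℂ) (w : ℂ) : 0 ≤ gA Φ φ w := by
  unfold gA
  positivity

theorem gA_zero {Φ : ℂ → ℝ} {φ : ℂ → ℂ} {w : ℂ} (hw : w ∉ tsupport φ) :
    gA Φ φ w = 0 ∧ φ w = 0 := by
  have h0 : φ w = 0 := image_eq_zero_of_notMem_tsupport hw
  have h1 : fderiv ℝ φ w = 0 := fderiv_of_notMem_tsupport ℝ hw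
  refine ⟨?_, h0⟩
  unfold gA dS dT
  rw [h1, h0]
  simp

theorem integrable_f {a : ℝ} {φ : ℂ → ℂ} (hφ : IsTest a φ) :
    Integrable (fun w => ‖φ w‖ ^ 2) := by
  have hc : Continuous (fun w => ‖φ w‖ ^ 2) := hφ.1.continuous.norm.pow 2
  refine (integrableOn_iff_integrable_of_support_subset (s := tsupport φ) ?_).1
    (hc.continuousOn.integrableOn_compact hφ.2.1)
  intro w hw
  by_contra hn
  apply hw
  simp only [image_eq_zero_of_notMem_tsupport hn, norm_zero]
  norm_num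

theorem integrable_g {a : ℝ} {Φ : ℂ → ℝ} {φ : ℂ → ℂ} (h : ContDiffOn ℝ ∞ Φ (strip a))
    (hφ : IsTest a φ) : Integrable (fun w => gA Φ φ w + lapC Φ w * ‖φ w‖ ^ 2) := by
  have hc : ContinuousOn (fun w => gA Φ φ w + lapC Φ w * ‖φ w‖ ^ 2) (tsupport φ) :=
    ((continuousOn_gA h hφ.1).add ((continuousOn_lapC h).mul
      ((hφ.1.continuous.norm.pow 2).continuousOn))).mono hφ.2.2
  refine (integrableOn_iff_integrable_of_support_subset (s := tsupport φ) ?_).1
    (hc.integrableOn_compact hφ.2.1)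
  intro w hw
  by_contra hn
  apply hw
  obtain ⟨h1, h2⟩ := gA_zero (Φ := Φ) hn
  simp only [h1, h2, norm_zero]
  norm_num

theorem measurableSet_sq (x : ℂ) (ρ : ℝ) : MeasurableSet (sq x ρ) := by
  unfold Pool.Agent.Helper95.AB.sq
  exact ((measurableSet_le measurable_const Complex.measurable_re).inter
    ((measurableSet_lt Complex.measurable_re measurable_const).inter
    ((measurableSet_le measurable_const Complex.measurable_im).inter
    (measurableSet_lt Complex.measurable_im measurable_const))))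

theorem measurableSet_RJ (a : ℝ) (B : BlockData) (j : ℕ) (k : ℤ) : MeasurableSet (RJ a B j k) := by
  unfold RJ
  exact ((measurableSet_lt Complex.measurable_re.abs measurable_const).inter
    ((measurableSet_le measurable_const Complex.measurable_im).inter
    (measurableSet_lt Complex.measurable_im measurable_const)))

/-- membership in a square of the block -/
theorem mem_sq {B : BlockData} {j i i' : ℕ} {k : ℤ} {w : ℂ} :
    w ∈ sq (B.ctr j i i' + 2 * Real.pi * k * Complex.I) (B.rho j) ↔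
      (-B.a2 j + i * B.rho j ≤ w.re ∧ w.re < -B.a2 j + (i + 1) * B.rho j) ∧
      2 * Real.pi * k + B.tau j + i' * B.rho j ≤ w.im ∧
      w.im < 2 * Real.pi * k + B.tau j + (i' + 1) * B.rho j := by
  have e1 : (B.ctr j i i' + 2 * Real.pi * k * Complex.I : ℂ).re
      = -B.a2 j + (i + 1 / 2) * B.rho j := by
    simp [BlockData.ctr]
  have e2 : (B.ctr j i i' + 2 * Real.pi * k * Complex.I : ℂ).im
      = B.tau j + (i' + 1 / 2) * B.rho j + 2 * Real.pi * k := by
    simp [BlockData.ctr]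
  unfold Pool.Agent.Helper95.AB.sq
  rw [mem_ofPred_eq, e1, e2]
  constructor
  · rintro ⟨h1, h2, h3, h4⟩
    exact ⟨⟨by linarith, by linarith⟩, by linarith, by linarith⟩
  · rintro ⟨⟨h1, h2⟩, h3, h4⟩
    exact ⟨by linarith, by linarith, by linarith, by linarith⟩

/-- two indices of the same interval agree -/
theorem index_unique {ρ x0 x : ℝ} (hρ : 0 < ρ) {i i' : ℕ} (h1 : x0 + i * ρ ≤ x)
    (h2 : x < x0 + (i + 1) * ρ) (h3 : x0 + i' * ρ ≤ x) (h4 : x < x0 + (i' + 1) * ρ) : i = i' := by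
  have k1 : (i : ℝ) * ρ < (i' + 1) * ρ := by linarith
  have k2 : (i' : ℝ) * ρ < (i + 1) * ρ := by linarith
  have k3 : (i : ℝ) < i' + 1 := lt_of_mul_lt_mul_right k1 hρ.le
  have k4 : (i' : ℝ) < i + 1 := lt_of_mul_lt_mul_right k2 hρ.le
  have k5 : i < i' + 1 := by exact_mod_cast k3
  have k6 : i' < i + 1 := by exact_mod_cast k4
  omega

/-- an index exists -/
theorem index_exists {ρ x0 x : ℝ} (hρ : 0 < ρ) {N : ℕ} (h1 : x0 ≤ x) (h2 : x < x0 + N * ρ) :
    ∃ i < N, x0 + i * ρ ≤ x ∧ x < x0 + (i + 1) * ρ := by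
  have h0 : 0 ≤ (x - x0) / ρ := div_nonneg (by linarith) hρ.le
  have f1 := Nat.floor_le h0
  have f2 := Nat.lt_floor_add_one ((x - x0) / ρ)
  rw [le_div_iff₀ hρ] at f1
  rw [div_lt_iff₀ hρ] at f2
  refine ⟨⌊(x - x0) / ρ⌋₊, ?_, by linarith, by linarith⟩
  rw [Nat.floor_lt h0, div_lt_iff₀ hρ]
  linarith

theorem barr (h1 : S_CELL) (h2 : S_SZ) : S_BARR := by
  intro a c C L δ₀ ρ₀ k1 p B Φ J j k φ ha hc hC hCL hp hcv hρ1 hCρ hLρ hGS hφ
  have hρ : 0 < B.rho j := hp.rho_pos j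
  have hα : alp J ≠ 0 := hGS.pos.ne'
  have hΦ := hcv.smooth J hα
  have hif := integrable_f hφ
  have hig := integrable_g hΦ hφ
  have hL1 : 1 ≤ L := hC.trans hCL
  have hCb1 : 1 ≤ Cb c := by
    unfold Cb
    have : 0 < 100 / c := by positivity
    linarith
  have hpi := Real.pi_pos
  -- the tiles
  obtain ⟨S, hS⟩ : ∃ S : ℕ × ℕ → Set ℂ, S = fun q =>
    sq (B.ctr j q.1 q.2 + 2 * Real.pi * k * Complex.I) (B.rho j) := ⟨_, rfl⟩
  obtain ⟨I, hI⟩ : ∃ I : Finset (ℕ × ℕ), I = Finset.range (B.Ns j) ×ˢ Finset.range (B.Nt j) :=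
    ⟨_, rfl⟩
  have hIm : ∀ q ∈ I, q.1 < B.Ns j ∧ q.2 < B.Nt j := by
    intro q hq
    rw [hI, Finset.mem_product, Finset.mem_range, Finset.mem_range] at hq
    exact hq
  obtain ⟨T, hT⟩ : ∃ T : Set ℂ, T = ⋃ q ∈ I, S q := ⟨_, rfl⟩
  have hSm : ∀ q, MeasurableSet (S q) := fun q => by rw [hS]; exact measurableSet_sq _ _
  have hTm : MeasurableSet T := by
    rw [hT]
    exact Finset.measurableSet_biUnion _ fun q _ => hSm q
  have hdis : (I : Set (ℕ × ℕ)).Pairwise (Function.onFun Disjoint S) := by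
    intro q _ q' _ hne
    rw [Function.onFun, Set.disjoint_left]
    intro w hw hw'
    rw [hS] at hw hw'
    rw [mem_sq] at hw hw'
    apply hne
    have e1 := index_unique hρ hw.1.1 hw.1.2 hw'.1.1 hw'.1.2
    have e2 := index_unique (x0 := 2 * Real.pi * k + B.tau j) hρ hw.2.1 hw.2.2 hw'.2.1 hw'.2.2
    exact Prod.ext e1 e2
  have hTmem : ∀ w, w ∈ T ↔ (-B.a2 j ≤ w.re ∧ w.re < B.a2 j) ∧
      2 * Real.pi * k + B.tau j ≤ w.im ∧ w.im < 2 * Real.pi * k + B.tau j + B.b j := by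
    intro w
    rw [hT]
    simp only [mem_iUnion, exists_prop]
    constructor
    · rintro ⟨q, hq, hw⟩
      rw [hS, mem_sq] at hw
      obtain ⟨q1, q2⟩ := hIm q hq
      have q1' : (q.1 : ℝ) + 1 ≤ B.Ns j := by exact_mod_cast q1
      have q2' : (q.2 : ℝ) + 1 ≤ B.Nt j := by exact_mod_cast q2
      have r1 : ((q.1 : ℝ) + 1) * B.rho j ≤ B.Ns j * B.rho j :=
        mul_le_mul_of_nonneg_right q1' hρ.le
      have r2 : ((q.2 : ℝ) + 1) * B.rho j ≤ B.Nt j * B.rho j :=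
        mul_le_mul_of_nonneg_right q2' hρ.le
      rw [hp.tile_s j] at r1
      rw [hp.tile_t j] at r2
      have r3 : 0 ≤ (q.1 : ℝ) * B.rho j := by positivity
      have r4 : 0 ≤ (q.2 : ℝ) * B.rho j := by positivity
      exact ⟨⟨by linarith [hw.1.1], by linarith [hw.1.2]⟩, by linarith [hw.2.1],
        by linarith [hw.2.2]⟩
    · rintro ⟨⟨w1, w2⟩, w3, w4⟩
      obtain ⟨i, hi, i1, i2⟩ := index_exists (x0 := -B.a2 j) (N := B.Ns j) hρ w1
        (by rw [hp.tile_s j]; linarith)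
      obtain ⟨i', hi', i1', i2'⟩ := index_exists (x0 := 2 * Real.pi * k + B.tau j)
        (N := B.Nt j) hρ w3 (by rw [hp.tile_t j]; linarith)
      refine ⟨(i, i'), ?_, ?_⟩
      · rw [hI, Finset.mem_product, Finset.mem_range, Finset.mem_range]
        exact ⟨hi, hi'⟩
      · rw [hS, mem_sq]
        exact ⟨⟨i1, i2⟩, i1', i2'⟩
  have hTR : T ⊆ RJ a B j k := by
    intro w hw
    rw [hTmem] at hw
    have := hp.a2_le j
    refine ⟨?_, hw.2.1, hw.2.2⟩
    rw [abs_lt]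
    exact ⟨by linarith [hw.1.1], by linarith [hw.1.2]⟩
  have hRm := measurableSet_RJ a B j k
  -- splitting of the integrals
  have split : ∀ f : ℂ → ℝ, Integrable f →
      ∫ w in RJ a B j k, f w = (∑ q ∈ I, ∫ w in S q, f w) + ∫ w in RJ a B j k \ T, f w := by
    intro f hf
    have e1 : ∫ w in T, f w = ∑ q ∈ I, ∫ w in S q, f w := by
      rw [hT]
      exact integral_biUnion_finset I (fun q _ => hSm q) hdis (fun q _ => hf.integrableOn)
    have e2 : ∫ w in T ∪ (RJ a B j k \ T), f w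
        = (∫ w in T, f w) + ∫ w in RJ a B j k \ T, f w :=
      setIntegral_union disjoint_sdiff_right (hRm.diff hTm) hf.integrableOn hf.integrableOn
    rw [union_sdiff_cancel hTR] at e2
    rw [e2, e1]
  rw [split _ hif, split _ hig, mul_add, Finset.mul_sum]
  refine add_le_add (Finset.sum_le_sum fun q hq => ?_) ?_
  · obtain ⟨q1, q2⟩ := hIm q hq
    rw [hS]
    exact h1 a c C L δ₀ ρ₀ k1 p B Φ J j k q.1 q.2 φ ha hc hC hCL hp hcv hρ1 hCρ hGS q1 q2 hφ.1
  · rw [← integral_const_mul]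
    refine setIntegral_mono_on hif.integrableOn (hig.const_mul _).integrableOn
      (hRm.diff hTm) fun w hw => ?_
    obtain ⟨hwR, hwT⟩ := hw
    have hws : w ∈ strip a := hwR.1
    have hre : B.a2 j ≤ |w.re| := by
      by_contra hn
      push Not at hn
      rw [abs_lt] at hn
      exact hwT ((hTmem w).2 ⟨⟨hn.1.le, hn.2⟩, hwR.2⟩)
    have hedge := hcv.edge J hGS.pos w hws ((hp.a2_ge j).trans hre)
    have him : 2 * Real.pi * k ≤ w.im := by
      have := hwR.2.1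
      have := hp.tau_pos j
      linarith
    have hW := (h2.2.2 L B J j k w.im hL1 hGS him).2.2.1
    have hlap : 1 / B.rho j ^ 2 ≤ lapC (Φ J) w := by
      have : c * L ≤ c * WF J w.im := mul_le_mul_of_nonneg_left hW hc.le
      linarith
    have hρ2 : 0 < B.rho j ^ 2 := by positivity
    have h3 : 1 ≤ B.rho j ^ 2 * lapC (Φ J) w := by
      rw [div_le_iff₀ hρ2] at hlap
      linarith
    have hf0 : 0 ≤ ‖φ w‖ ^ 2 := by positivity
    have hg0 := gA_nonneg (Φ J) φ w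
    have h4 : ‖φ w‖ ^ 2 ≤ B.rho j ^ 2 * (gA (Φ J) φ w + lapC (Φ J) w * ‖φ w‖ ^ 2) := by
      have h5 : 1 * ‖φ w‖ ^ 2 ≤ B.rho j ^ 2 * lapC (Φ J) w * ‖φ w‖ ^ 2 :=
        mul_le_mul_of_nonneg_right h3 hf0
      have h6 : 0 ≤ B.rho j ^ 2 * gA (Φ J) φ w := mul_nonneg hρ2.le hg0
      linarith
    have h7 : 0 ≤ B.rho j ^ 2 * (gA (Φ J) φ w + lapC (Φ J) w * ‖φ w‖ ^ 2) := hf0.trans h4
    have h8 : 1 * (B.rho j ^ 2 * (gA (Φ J) φ w + lapC (Φ J) w * ‖φ w‖ ^ 2))
        ≤ Cb c * (B.rho j ^ 2 * (gA (Φ J) φ w + lapC (Φ J) w * ‖φ w‖ ^ 2)) :=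
      mul_le_mul_of_nonneg_right hCb1 h7
    linarith

end Pool.Agent.Helper13.AB
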