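import Pool.Agent.Helper27.AB.PH3.Goals

/-! # Project AB, module PH3, packet POLL: the derivatives of `Λ` along `F` -/

open MeasureTheory Set Filter Topology
open scoped ContDiff

noncomputable section

namespace Pool.Agent.Helper13.AB

open Pool.Agent.Helper24.AB Pool.Agent.Helper15.AB Pool.Agent.Helper27.AB

theorem isOpen_strip' (a : ℝ) : IsOpen (strip a) :=
  isOpen_lt (Complex.continuous_re.abs) continuous_const

theorem lam_smooth (hL : S_LAM) (j : ℕ) : ContDiffOn ℝ ∞ (iteratedDeriv j Lam) (Ioi 0) := by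
  induction j with
  | zero =>
    rw [iteratedDeriv_zero]
    exact hL.1
  | succ j ih =>
    rw [iteratedDeriv_succ]
    exact ih.deriv_of_isOpen isOpen_Ioi (by simp)

theorem poll (hA : S_POLA) (hF : S_POLF) (hL : S_LAM) (hT : S_TEX) : S_POLL := by
  intro a A s hs m
  obtain ⟨_, _, _, hmul, hdown, hup, hcongr⟩ := hA a
  have hpos : ∀ (q : Par), ∀ z ∈ strip a, 0 < Ff a A s q.1.1 q.1.2.1 q.1.2.2 z := fun q z hz =>
    (hT a A s hs q.1.1 q.1.2.1 q.1.2.2 (Or.inl q.2) z hz).1
  have hsm : ∀ q : Par, ContDiffOn ℝ ∞ (Ff a A s q.1.1 q.1.2.1 q.1.2.2) (strip a) :=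
    (hF a A s hs 0).smooth
  have h0 : ∀ j : ℕ, 1 ≤ j →
      PB a 0 (fun q z => iteratedDeriv j Lam (Ff a A s q.1.1 q.1.2.1 q.1.2.2 z)) := by
    intro j hj
    refine ⟨fun q => ?_, fun w hw => ?_⟩
    · exact (lam_smooth hL j).comp (hsm q) fun z hz => hpos q z hz
    · obtain ⟨C, hC⟩ := hL.2 j hj
      have hw0 : w = [] := List.length_eq_zero_iff.1 (by omega)
      subst hw0
      refine ⟨C, 0, fun q z hz => ?_⟩
      rw [pow_zero, mul_one]
      exact hC _ (hpos q z hz)
  have hder : ∀ (j : ℕ) (q : Par), ∀ z ∈ strip a,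
      HasFDerivAt (fun z => iteratedDeriv j Lam (Ff a A s q.1.1 q.1.2.1 q.1.2.2 z))
        (iteratedDeriv (j + 1) Lam (Ff a A s q.1.1 q.1.2.1 q.1.2.2 z) •
          fderiv ℝ (Ff a A s q.1.1 q.1.2.1 q.1.2.2) z) z := by
    intro j q z hz
    have h1 : DifferentiableAt ℝ (Ff a A s q.1.1 q.1.2.1 q.1.2.2) z :=
      ((hsm q).differentiableOn (by simp)).differentiableAt ((isOpen_strip' a).mem_nhds hz)
    have h2 : DifferentiableAt ℝ (iteratedDeriv j Lam) (Ff a A s q.1.1 q.1.2.1 q.1.2.2 z) :=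
      ((lam_smooth hL j).differentiableOn (by simp)).differentiableAt
        (Ioi_mem_nhds (hpos q z hz))
    have h3 := h2.hasDerivAt
    rw [← iteratedDeriv_succ] at h3
    exact h3.comp_hasFDerivAt z h1.hasFDerivAt
  induction m with
  | zero => exact h0
  | succ m ih =>
    intro j hj
    have hFm := hdown m _ (hF a A s hs (m + 1))
    have e1 := hmul m _ _ (ih (j + 1) (by omega)) hFm.2.1
    have e2 := hmul m _ _ (ih (j + 1) (by omega)) hFm.2.2
    refine hup m _ (h0 j hj) (hcongr m _ _ (fun q z hz => ?_) e1)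
      (hcongr m _ _ (fun q z hz => ?_) e2)
    · unfold dS
      rw [(hder j q z hz).fderiv]
      rfl
    · unfold dT
      rw [(hder j q z hz).fderiv]
      rfl

end Pool.Agent.Helper13.AB
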